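import Pool.Agent.Run7.h492.EW.Letter

/-!
# The letters of the Calkin-Wilf tree and of continued fractions
-/

set_option autoImplicit false

namespace Pool.Agent.Run7.h492.EW

open Finset

/-- reaching a point is invariant under the letters -/
theorem reach_iff {X ι : Type*} [Finite X] (f : ι → Equiv.Perm X) (v x : X) (i : ι) :
    (∃ w : List ι, act f w (f i x) = v) ↔ ∃ w : List ι, act f w x = v := by
  constructor
  · rintro ⟨w, hw⟩
    exact ⟨i :: w, hw⟩
  · rintro ⟨w, hw⟩
    have hrep : ∀ (n : ℕ) (y : X), act f (List.replicate n i) y = ((f i) ^ n) y := by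
      intro n
      induction n with
      | zero => intro y; rfl
      | succ n ih =>
        intro y
        rw [List.replicate_succ, act, ih, pow_succ, Equiv.Perm.mul_apply]
    refine ⟨List.replicate (orderOf (f i) - 1) i ++ w, ?_⟩
    rw [act_append, hrep]
    have h1 : 0 < orderOf (f i) := orderOf_pos (f i)
    have h2 : ((f i) ^ (orderOf (f i) - 1)) (f i x) = x := by
      rw [← Equiv.Perm.mul_apply, ← pow_succ]
      have : orderOf (f i) - 1 + 1 = orderOf (f i) := by omega
      rw [this, pow_orderOf_eq_one]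
      rfl
    rw [h2, hw]

/-- a property of unimodular pairs as a property of all pairs -/
def Q {M : ℕ} (R : X M → Prop) (x y : ZMod M) : Prop := ∀ h : IsCoprime x y, R ⟨(x, y), h⟩

theorem Q_of {M : ℕ} {R : X M → Prop} (h : ∀ x y, Q R x y) (v : X M) : R v := h v.1.1 v.1.2 v.2

/-- the point `(0, 1)` -/
def e01 (M : ℕ) : X M := ⟨(0, 1), by rw [isCoprime_zero_left]; exact isUnit_one⟩

/-! ### the Calkin-Wilf tree -/

/-- `true`: `(x, y) ↦ (x, x + y)`; `false`: `(x, y) ↦ (x + y, y)` -/
def cw : Bool → Letter
  | true => ⟨1, 0, 1, 1, by norm_num⟩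
  | false => ⟨1, 1, 0, 1, by norm_num⟩

theorem cw_true {R : Type*} [CommSemiring R] (v : R × R) : (cw true).ap v = (v.1, v.1 + v.2) := by
  simp [cw, Letter.ap]

theorem cw_false {R : Type*} [CommSemiring R] (v : R × R) : (cw false).ap v = (v.1 + v.2, v.2) := by
  simp [cw, Letter.ap]

theorem Q_letter {M : ℕ} [NeZero M] (l : Letter) (R R' : X M → Prop)
    (h : ∀ v, R (l.perm M v) ↔ R' v) (x y : ZMod M) :
    Q R (l.ap (x, y)).1 (l.ap (x, y)).2 ↔ Q R' x y := by
  constructor
  · intro H hxy
    have h1 := H (l.coprime (x, y) hxy)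
    exact (h ⟨(x, y), hxy⟩).mp h1
  · intro H hxy
    have hxy' : IsCoprime x y := by
      -- the pair is in the image of the permutation
      obtain ⟨⟨⟨x', y'⟩, h'⟩, hv⟩ := (l.perm M).surjective ⟨l.ap (x, y), hxy⟩
      have h2 := congrArg Subtype.val hv
      rw [Letter.perm_val] at h2
      have h3 := l.ap_inj h2
      rw [Prod.mk.injEq] at h3
      obtain ⟨rfl, rfl⟩ := h3
      exact h'
    exact (h ⟨(x, y), hxy'⟩).mpr (H hxy')

theorem cw_mix (M : ℕ) [NeZero M] : ∃ K : ℕ, ∀ x y : X M, ∃ w : List Bool,
    w.length = K ∧ act (fun i => (cw i).perm M) w x = y := by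
  classical
  apply mixing (fun i => (cw i).perm M) (e01 M)
  · intro x
    set R : X M → Prop := fun x => ∃ w : List Bool, act (fun i => (cw i).perm M) w x = e01 M with hR
    have hRi : ∀ (i : Bool) (v : X M), R ((cw i).perm M v) ↔ R v := fun i v =>
      (reach_iff (fun i => (cw i).perm M) (e01 M) v i)
    refine Q_of (R := R) ?_ x
    apply euclid
    · intro x y
      have := Q_letter (cw false) R R (hRi false) x y
      rw [cw_false] at this
      exact this
    · intro x y
      have := Q_letter (cw true) R R (hRi true) x y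
      rw [cw_true] at this
      exact this
    · intro x y h h'
      exact absurd h' h
    · intro h
      exact ⟨[], rfl⟩
  · intro B hB k hk
    rw [← hB k true, Finset.mem_image]
    refine ⟨e01 M, hk, ?_⟩
    apply Subtype.ext
    rw [Letter.perm_val, cw_true]
    simp [e01]

theorem cw_pos (w : List Bool) : 1 ≤ (vec cw (1, 1) w).1 ∧ 1 ≤ (vec cw (1, 1) w).2 := by
  induction w with
  | nil => exact ⟨le_rfl, le_rfl⟩
  | cons i w ih =>
    cases i
    · rw [vec, cw_false]
      simp only
      omega
    · rw [vec, cw_true]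
      simp only
      omega

theorem cw_sep (w w' : List Bool) (hl : w.length = w'.length)
    (h : vec cw (1, 1) w = vec cw (1, 1) w') : w = w' := by
  induction w generalizing w' with
  | nil =>
    rw [List.length_nil] at hl
    exact (List.length_eq_zero_iff.mp hl.symm).symm
  | cons i w ih =>
    cases w' with
    | nil => simp at hl
    | cons i' w' =>
      have hl' : w.length = w'.length := by simpa using hl
      have p1 := cw_pos w
      have p2 := cw_pos w'
      cases i <;> cases i'
      · rw [vec, vec] at h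
        have h3 : vec cw (1, 1) w = vec cw (1, 1) w' := by
          rw [cw_false, cw_false, Prod.mk.injEq] at h
          ext <;> omega
        rw [ih w' hl' h3]
      · rw [vec, vec, cw_false, cw_true, Prod.mk.injEq] at h
        omega
      · rw [vec, vec, cw_false, cw_true, Prod.mk.injEq] at h
        omega
      · rw [vec, vec] at h
        have h3 : vec cw (1, 1) w = vec cw (1, 1) w' := by
          rw [cw_true, cw_true, Prod.mk.injEq] at h
          ext <;> omega
        rw [ih w' hl' h3]

/-! ### continued fractions -/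

/-- `(x, y) ↦ (y, x + a y)` -/
def cf (a : ℕ) : Letter := ⟨0, 1, 1, a, by norm_num⟩

theorem cf_ap {R : Type*} [CommSemiring R] (a : ℕ) (v : R × R) :
    (cf a).ap v = (v.2, v.1 + a * v.2) := by
  simp [cf, Letter.ap]

/-- the alphabet is not contained in a residue class modulo any `d ≥ 2` -/
def Prim (A : Finset ℕ) : Prop := ∀ d : ℕ, (∀ a ∈ A, ∀ b ∈ A, (d : ℤ) ∣ (a : ℤ) - b) → d = 1

/-- a property invariant under `(x, y) ↦ (x + (a - b) y, y)` is invariant under `(x + y, y)` -/
theorem shift_inv {M : ℕ} {A : Finset ℕ} (hA : Prim A) (P : ZMod M → ZMod M → Prop)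
    (h : ∀ a ∈ A, ∀ b ∈ A, ∀ x y, P (x + (((a : ℤ) - b : ℤ) : ZMod M) * y) y ↔ P x y)
    (x y : ZMod M) : P (x + y) y ↔ P x y := by
  set H : AddSubgroup ℤ :=
    { carrier := {n | ∀ x y : ZMod M, P (x + (n : ZMod M) * y) y ↔ P x y}
      zero_mem' := by intro x y; simp
      add_mem' := by
        intro m n hm hn x y
        rw [← hn x y, ← hm (x + (n : ZMod M) * y) y]
        have : x + ((m + n : ℤ) : ZMod M) * y = x + (n : ZMod M) * y + (m : ZMod M) * y := by
          push_cast; ring
        rw [this]
      neg_mem' := by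
        intro m hm x y
        rw [← hm (x + ((-m : ℤ) : ZMod M) * y) y]
        have : x + ((-m : ℤ) : ZMod M) * y + (m : ZMod M) * y = x := by push_cast; ring
        rw [this] } with hH
  obtain ⟨g, hg⟩ := Int.subgroup_cyclic H
  have hd : g.natAbs = 1 := by
    apply hA
    intro a ha b hb
    have h1 : (a : ℤ) - b ∈ H := h a ha b hb
    rw [hg, AddSubgroup.mem_closure_singleton] at h1
    obtain ⟨n, hn⟩ := h1
    rw [Int.natAbs_dvd]
    refine ⟨n, ?_⟩
    rw [← hn, smul_eq_mul, mul_comm]
  have h1 : (1 : ℤ) ∈ H := by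
    rw [hg, AddSubgroup.mem_closure_singleton]
    rcases Int.natAbs_eq g with h | h
    · refine ⟨1, ?_⟩
      rw [h, hd]; rfl
    · refine ⟨-1, ?_⟩
      rw [h, hd]; rfl
  have h2 := h1 x y
  simpa using h2

variable {A : Finset ℕ}

/-- the letters -/
def cfL (A : Finset ℕ) : {a // a ∈ A} → Letter := fun a => cf a.1

theorem cfL_ap {R : Type*} [CommSemiring R] (a : {a // a ∈ A}) (v : R × R) :
    (cfL A a).ap v = (v.2, v.1 + (a.1 : R) * v.2) := cf_ap a.1 v

/-- two letters differ by a shift -/
theorem cf_shift {M : ℕ} (a b : {a // a ∈ A}) (x y : ZMod M) :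
    (cfL A b).ap (x + (((a.1 : ℤ) - b.1 : ℤ) : ZMod M) * y, y) = (cfL A a).ap (x, y) := by
  rw [cfL_ap, cfL_ap]
  simp only [Prod.mk.injEq, true_and]
  push_cast
  ring

theorem cf_mix (hA : Prim A) (hne : A.Nonempty) (M : ℕ) [NeZero M] :
    ∃ K : ℕ, ∀ x y : X M, ∃ w : List {a // a ∈ A},
    w.length = K ∧ act (fun i => (cfL A i).perm M) w x = y := by
  classical
  obtain ⟨a₀, ha₀⟩ := hne
  have : Nonempty {a // a ∈ A} := ⟨⟨a₀, ha₀⟩⟩
  apply mixing (fun i => (cfL A i).perm M) (e01 M)
  · intro x
    set R : X M → Prop := fun x => ∃ w : List {a // a ∈ A}, act (fun i => (cfL A i).perm M) w x = e01 M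
      with hR
    have hRi : ∀ (i : {a // a ∈ A}) (v : X M), R ((cfL A i).perm M v) ↔ R v := fun i v =>
      (reach_iff (fun i => (cfL A i).perm M) (e01 M) v i)
    refine Q_of (R := R) ?_ x
    have hlet : ∀ (a : {a // a ∈ A}) (x y : ZMod M), Q R y (x + (a.1 : ZMod M) * y) ↔ Q R x y := by
      intro a x y
      have := Q_letter (cfL A a) R R (hRi a) x y
      rw [cfL_ap] at this
      exact this
    have hl : ∀ x y : ZMod M, Q R (x + y) y ↔ Q R x y := by
      intro x y
      refine shift_inv hA (Q R) (fun a ha b hb x y => ?_) x y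
      rw [← hlet ⟨b, hb⟩ (x + (((a : ℤ) - b : ℤ) : ZMod M) * y) y, ← hlet ⟨a, ha⟩ x y]
      have : x + (((a : ℤ) - b : ℤ) : ZMod M) * y + (b : ZMod M) * y = x + (a : ZMod M) * y := by
        push_cast; ring
      rw [this]
    have hln : ∀ (n : ℕ) (x y : ZMod M), Q R (x + n * y) y ↔ Q R x y := by
      intro n
      induction n with
      | zero => intro x y; simp
      | succ n ih =>
        intro x y
        rw [← ih x y, ← hl (x + n * y) y]
        have : x + ((n + 1 : ℕ) : ZMod M) * y = x + n * y + y := by push_cast; ring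
        rw [this]
    have hswap : ∀ x y : ZMod M, Q R y x ↔ Q R x y := by
      intro x y
      have h1 := hlet ⟨a₀, ha₀⟩ (x - (a₀ : ZMod M) * y) y
      have h2 := hln a₀ (x - (a₀ : ZMod M) * y) y
      rw [sub_add_cancel] at h1 h2
      rw [h1, h2]
    apply euclid
    · exact hl
    · intro x y
      rw [← hswap x (x + y), ← hswap x y, add_comm x y]
      exact hl y x
    · intro x y h h'
      exact absurd h' h
    · intro h
      exact ⟨[], rfl⟩
  · intro B hB k hk
    -- the membership as a property of pairs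
    have hlet : ∀ (k : ℕ) (a : {a // a ∈ A}) (x y : ZMod M),
        Q (fun v => v ∈ B (k + 1)) y (x + (a.1 : ZMod M) * y) ↔ Q (fun v => v ∈ B k) x y := by
      intro k a x y
      have := Q_letter (cfL A a) (fun v => v ∈ B (k + 1)) (fun v => v ∈ B k) (fun v => by
        rw [← hB k a, Finset.mem_image]
        constructor
        · rintro ⟨v', hv', h⟩
          rw [← ((cfL A a).perm M).injective h]
          exact hv'
        · intro h
          exact ⟨v, h, rfl⟩) x y
      rw [cfL_ap] at this
      exact this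
    have hl : ∀ (k : ℕ) (x y : ZMod M), Q (fun v => v ∈ B k) (x + y) y ↔ Q (fun v => v ∈ B k) x y := by
      intro k x y
      refine shift_inv hA (Q (fun v => v ∈ B k)) (fun a ha b hb x y => ?_) x y
      rw [← hlet k ⟨b, hb⟩ (x + (((a : ℤ) - b : ℤ) : ZMod M) * y) y, ← hlet k ⟨a, ha⟩ x y]
      have : x + (((a : ℤ) - b : ℤ) : ZMod M) * y + (b : ZMod M) * y = x + (a : ZMod M) * y := by
        push_cast; ring
      rw [this]
    have hln : ∀ (k n : ℕ) (x y : ZMod M), Q (fun v => v ∈ B k) (x + n * y) y ↔
        Q (fun v => v ∈ B k) x y := by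
      intro k n
      induction n with
      | zero => intro x y; simp
      | succ n ih =>
        intro x y
        rw [← ih x y, ← hl k (x + n * y) y]
        have : x + ((n + 1 : ℕ) : ZMod M) * y = x + n * y + y := by push_cast; ring
        rw [this]
    have h0 : Q (fun v => v ∈ B k) (0 : ZMod M) 1 := fun _ => hk
    -- `(t, 1)` for all `t`
    have h1 : ∀ t : ZMod M, Q (fun v => v ∈ B k) t 1 := by
      intro t
      have := (hln k t.val 0 1).mpr h0
      rwa [ZMod.natCast_val, ZMod.cast_id, zero_add, mul_one] at this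
    have h2 := (hlet k ⟨a₀, ha₀⟩ (1 - (a₀ : ZMod M)) 1).mpr (h1 _)
    simp only [mul_one, sub_add_cancel] at h2
    have h3 := (hl (k + 1) 0 1).mp (by rw [zero_add]; exact h2)
    exact h3 _

theorem cf_pos (hpos : ∀ a ∈ A, 1 ≤ a) (w : List {a // a ∈ A}) :
    1 ≤ (vec (cfL A) (0, 1) w).2 ∧ (vec (cfL A) (0, 1) w).1 ≤ (vec (cfL A) (0, 1) w).2 ∧
      (w ≠ [] → 1 ≤ (vec (cfL A) (0, 1) w).1) := by
  induction w with
  | nil => exact ⟨le_rfl, by simp [vec], fun h => absurd rfl h⟩
  | cons i w ih =>
    obtain ⟨h1, h2, -⟩ := ih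
    have h3 := hpos i.1 i.2
    rw [vec, cfL_ap]
    simp only [Nat.cast_id]
    refine ⟨?_, ?_, fun _ => h1⟩
    · nlinarith
    · nlinarith

theorem cf_sep (hpos : ∀ a ∈ A, 1 ≤ a) (w w' : List {a // a ∈ A}) (hl : w.length = w'.length)
    (h : vec (cfL A) (0, 1) w = vec (cfL A) (0, 1) w') : w = w' := by
  induction w generalizing w' with
  | nil =>
    rw [List.length_nil] at hl
    exact (List.length_eq_zero_iff.mp hl.symm).symm
  | cons i w ih =>
    cases w' with
    | nil => simp at hl
    | cons i' w' =>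
      have hl' : w.length = w'.length := by simpa using hl
      obtain ⟨p1, p2, p3⟩ := cf_pos hpos w
      obtain ⟨q1, q2, q3⟩ := cf_pos hpos w'
      rw [vec, vec, cfL_ap, cfL_ap] at h
      simp only [Nat.cast_id, Prod.mk.injEq] at h
      obtain ⟨h1, h2⟩ := h
      rcases w with _ | ⟨j, w⟩
      · have hw' : w' = [] := List.length_eq_zero_iff.mp hl'.symm
        subst hw'
        simp only [vec] at h2
        have : i.1 = i'.1 := by omega
        rw [Subtype.ext this]
      · have hne' : w' ≠ [] := by
          rintro rfl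
          simp at hl'
        have p3 := p3 (by simp)
        have q3 := q3 hne'
        set u := vec (cfL A) (0, 1) (j :: w) with hu
        set u' := vec (cfL A) (0, 1) w' with hu'
        have hi : i.1 = i'.1 := by
          rw [← h1] at h2 q2
          rcases Nat.lt_trichotomy i.1 i'.1 with h | h | h
          · exfalso
            have : (i.1 + 1) * u.2 ≤ i'.1 * u.2 := Nat.mul_le_mul_right _ h
            nlinarith
          · exact h
          · exfalso
            have : (i'.1 + 1) * u.2 ≤ i.1 * u.2 := Nat.mul_le_mul_right _ h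
            nlinarith
        have hu1 : u.1 = u'.1 := by
          rw [← h1, hi] at h2
          omega
        have := ih w' hl' (Prod.ext hu1 h1)
        rw [this, Subtype.ext hi]

end Pool.Agent.Run7.h492.EW
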