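import Pool.Agent.Run7.h492.EW.Main
import Pool.Agent.Run7.h492.EW.Inst

/-!
# Families of letters which contain the letters of the Calkin-Wilf tree or of continued fractions
-/

set_option autoImplicit false

namespace Pool.Agent.Run7.h492.EW

open Finset

theorem vec_map {ι J : Type*} (L : ι → Letter) (e : J → ι) (v : ℕ × ℕ) (w : List J) :
    vec L v (w.map e) = vec (fun j => L (e j)) v w := by
  induction w with
  | nil => rfl
  | cons j w ih => rw [List.map_cons, vec, vec, ih]

theorem act_map {ι J X : Type*} (f : ι → Equiv.Perm X) (e : J → ι) (w : List J) (x : X) :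
    act f (w.map e) x = act (fun j => f (e j)) w x := by
  induction w generalizing x with
  | nil => rfl
  | cons j w ih => rw [List.map_cons, act, act, ih]

theorem apart_sub {ι J : Type*} (L : ι → Letter) (e : J → ι) {n : ℕ}
    (h : Apart (fun j => L (e j)) n) : Apart L n := by
  obtain ⟨u, u', hu⟩ := h
  refine ⟨fun t => e (u t), fun t => e (u' t), fun v v' hv hv' => ?_⟩
  have := hu v v' hv hv'
  rw [← vec_map L e v, ← vec_map L e v', List.map_ofFn, List.map_ofFn] at this
  exact this

theorem mix_sub {ι J : Type*} (L : ι → Letter) (e : J → ι) {M : ℕ} [NeZero M]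
    (h : ∃ K : ℕ, ∀ x y : X M, ∃ w : List J,
      w.length = K ∧ act (fun i => (L (e i)).perm M) w x = y) :
    ∃ K : ℕ, ∀ x y : X M, ∃ w : List ι, w.length = K ∧ act (fun i => (L i).perm M) w x = y := by
  obtain ⟨K, hK⟩ := h
  refine ⟨K, fun x y => ?_⟩
  obtain ⟨w, hw, hxy⟩ := hK x y
  exact ⟨w.map e, by rw [List.length_map, hw], by rw [act_map, hxy]⟩

theorem cw_apart : Apart cw 3 := by
  refine ⟨![true, false, true], ![false, true, false], ?_⟩
  rintro ⟨x, y⟩ ⟨x', y'⟩ h h' heq
  simp only [List.ofFn_succ, List.ofFn_zero, Matrix.cons_val_zero, Matrix.cons_val_succ, vec,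
    cw_true, cw_false, Prod.mk.injEq] at heq
  simp only at h
  have hx : x = 0 := by omega
  have hy : y = 0 := by omega
  rw [hx, hy] at h
  simp at h

theorem cf_apart {A : Finset ℕ} (hpos : ∀ a ∈ A, 1 ≤ a) {a b : ℕ} (ha : a ∈ A) (hb : b ∈ A)
    (hab : a < b) : Apart (cfL A) 3 := by
  refine ⟨fun _ => ⟨a, ha⟩, fun _ => ⟨b, hb⟩, ?_⟩
  rintro ⟨x, y⟩ ⟨x', y'⟩ h h' heq
  have ha1 := hpos a ha
  have hb1 := hpos b hb
  simp only [List.ofFn_succ, List.ofFn_zero, vec, cfL_ap, Nat.cast_id, Prod.mk.injEq] at heq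
  obtain ⟨h1, h2⟩ := heq
  simp only at h'
  obtain ⟨s, hs⟩ : ∃ s, s = x + a * y := ⟨_, rfl⟩
  obtain ⟨s', hs'⟩ : ∃ s', s' = x' + b * y' := ⟨_, rfl⟩
  obtain ⟨Y, hY⟩ : ∃ Y, Y = y + a * s := ⟨_, rfl⟩
  rw [← hs, ← hs'] at h1 h2
  rw [← hY] at h1 h2
  rw [← h1] at h2
  have h3 : (a + 1) * Y ≤ b * Y := Nat.mul_le_mul_right _ hab
  have h4 : s ≤ a * s := Nat.le_mul_of_pos_left s ha1
  have h5 : s' = 0 := by
    rw [add_mul, one_mul] at h3
    omega
  have h6 : x' = 0 := by omega
  have h7 : b * y' = 0 := by omega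
  have h8 : y' = 0 := by
    rcases Nat.mul_eq_zero.mp h7 with h | h
    · omega
    · exact h
  rw [h6, h8] at h'
  simp at h'

/-- **Criterion.** -/
theorem sys_of {ι : Type*} [Fintype ι] (L : ι → Letter) (v₀ : ℕ × ℕ) (h₀ : Nat.Coprime v₀.1 v₀.2)
    (h : (∃ i j, L i = cw true ∧ L j = cw false) ∨ ∃ A : Finset ℕ, (∀ a ∈ A, 1 ≤ a) ∧ Prim A ∧
      ∀ a ∈ A, ∃ i, L i = cf a) : Sys L v₀ := by
  classical
  rcases h with ⟨i, j, hi, hj⟩ | ⟨A, hpos, hA, hL⟩
  · set e : Bool → ι := fun b => if b then i else j with he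
    have hLe : (fun b => L (e b)) = cw := by
      funext b
      cases b
      · simp [he, hj]
      · simp [he, hi]
    refine ⟨h₀, fun M _ => ?_, 3, ?_⟩
    · apply mix_sub L e
      have hLe' : ∀ b, L (e b) = cw b := fun b => congrFun hLe b
      simp only [hLe']
      exact cw_mix M
    · apply apart_sub L e
      rw [hLe]
      exact cw_apart
  · have hL' : ∀ a : {a // a ∈ A}, ∃ i, L i = cf a.1 := fun a => hL a.1 a.2
    choose e he using hL'
    have hLe : (fun a => L (e a)) = cfL A := by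
      funext a
      exact he a
    have hne : A.Nonempty := by
      by_contra hcon
      rw [Finset.not_nonempty_iff_eq_empty] at hcon
      have := hA 0 (by rw [hcon]; simp)
      omega
    obtain ⟨a, ha, b, hb, hab⟩ : ∃ a ∈ A, ∃ b ∈ A, a < b := by
      by_contra hcon
      push Not at hcon
      have := hA 0 (by
        intro a ha b hb
        have h1 := hcon a ha b hb
        have h2 := hcon b hb a ha
        have : a = b := by omega
        rw [this, sub_self]
        exact dvd_zero _)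
      omega
    refine ⟨h₀, fun M _ => ?_, 3, ?_⟩
    · apply mix_sub L e
      have hLe' : ∀ b, L (e b) = cfL A b := fun b => congrFun hLe b
      simp only [hLe']
      exact cf_mix hA hne M
    · apply apart_sub L e
      rw [hLe]
      exact cf_apart hpos ha hb hab

end Pool.Agent.Run7.h492.EW
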