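import Pool.Agent.Run7.h492.EW.Letter

/-!
# No pair is taken by random words with large probability
-/

set_option autoImplicit false

namespace Pool.Agent.Run7.h492.EW

open Finset

variable {ι : Type*}

theorem vec_append (L : ι → Letter) (v₀ : ℕ × ℕ) (u w : List ι) :
    vec L v₀ (u ++ w) = vec L (vec L v₀ w) u := by
  induction u with
  | nil => rfl
  | cons i u ih => rw [List.cons_append, vec, vec, ih]

theorem Letter.ap_inj_nat (l : Letter) {v w : ℕ × ℕ} (h : l.ap v = l.ap w) : v = w := by
  have h1 : l.ap ((v.1 : ℤ), (v.2 : ℤ)) = l.ap ((w.1 : ℤ), (w.2 : ℤ)) := by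
    unfold Letter.ap at h ⊢
    rw [Prod.mk.injEq] at h ⊢
    simp only [Nat.cast_id] at h
    simp only
    constructor
    · exact_mod_cast h.1
    · exact_mod_cast h.2
  have h2 := l.ap_inj h1
  rw [Prod.mk.injEq] at h2
  ext
  · exact_mod_cast h2.1
  · exact_mod_cast h2.2

theorem vec_inj (L : ι → Letter) (u : List ι) {v v' : ℕ × ℕ} (h : vec L v u = vec L v' u) :
    v = v' := by
  induction u with
  | nil => exact h
  | cons i u ih => exact ih ((L i).ap_inj_nat h)

open Classical in
/-- the probability that the word is at `v` -/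
noncomputable def mass [Fintype ι] (L : ι → Letter) (v₀ : ℕ × ℕ) {k : ℕ} (p : Fin k → ι → ℝ)
    (v : ℕ × ℕ) : ℝ := ∑ w : Fin k → ι, if vec L v₀ (List.ofFn w) = v then ∏ t, p t (w t) else 0

theorem prod_law [Fintype ι] {η : ℝ} {k : ℕ} (p : Fin k → ι → ℝ) (hp : ∀ t, Law η (p t)) :
    ∑ w : Fin k → ι, ∏ t, p t (w t) = 1 := by
  rw [← Fintype.piFinset_univ, ← Finset.prod_univ_sum]
  exact Finset.prod_eq_one fun t _ => (hp t).2

theorem mass_step [Fintype ι] (L : ι → Letter) (v₀ : ℕ × ℕ) {n k : ℕ} (p : Fin (n + k) → ι → ℝ)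
    (v : ℕ × ℕ) : mass L v₀ p v = ∑ a : Fin n → ι, (∏ t, p (Fin.castAdd k t) (a t)) *
      ∑ b : Fin k → ι, if vec L (vec L v₀ (List.ofFn b)) (List.ofFn a) = v then
        ∏ t, p (Fin.natAdd n t) (b t) else 0 := by
  classical
  unfold mass
  rw [← Equiv.sum_comp (Fin.appendEquiv n k), Fintype.sum_prod_type]
  refine Finset.sum_congr rfl fun a _ => ?_
  rw [Finset.mul_sum]
  refine Finset.sum_congr rfl fun b _ => ?_
  have e1 : (Fin.appendEquiv n k) (a, b) = Fin.append a b := rfl
  rw [e1, List.ofFn_fin_append, vec_append, Fin.prod_univ_add]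
  simp only [Fin.append_left, Fin.append_right]
  split_ifs with h
  · rfl
  · rw [mul_zero]

/-- two words of length `n` without a common value -/
def Apart (L : ι → Letter) (n : ℕ) : Prop := ∃ u u' : Fin n → ι, ∀ v v' : ℕ × ℕ,
  Nat.Coprime v.1 v.2 → Nat.Coprime v'.1 v'.2 → vec L v (List.ofFn u) ≠ vec L v' (List.ofFn u')

theorem mass_le [Fintype ι] {η : ℝ} (hη : 0 < η) (hη1 : η ≤ 1) (L : ι → Letter) (v₀ : ℕ × ℕ)
    (h₀ : Nat.Coprime v₀.1 v₀.2) (n : ℕ) (hA : Apart L n) (m : ℕ) :
    ∀ (s : ℕ) (p : Fin (n * m + s) → ι → ℝ), (∀ t, Law η (p t)) → ∀ v : ℕ × ℕ,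
      mass L v₀ p v ≤ (1 - η ^ n) ^ m := by
  classical
  have hρ : 0 ≤ 1 - η ^ n := by
    have := pow_le_one₀ (n := n) hη.le hη1
    linarith
  induction m with
  | zero =>
    intro s p hp v
    rw [pow_zero, ← prod_law p hp]
    refine Finset.sum_le_sum fun w _ => ?_
    split_ifs
    · exact le_rfl
    · exact Finset.prod_nonneg fun t _ => hη.le.trans ((hp t).1 _)
  | succ m ih =>
    intro s p hp v
    -- cast
    have hk : n * (m + 1) + s = n + (n * m + s) := by ring
    obtain ⟨k, hkk⟩ : ∃ k, k = n * (m + 1) + s := ⟨_, rfl⟩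
    have key : ∀ (p : Fin (n + (n * m + s)) → ι → ℝ), (∀ t, Law η (p t)) →
        mass L v₀ p v ≤ (1 - η ^ n) ^ (m + 1) := by
      intro p hp
      rw [mass_step]
      obtain ⟨u, u', hu⟩ := hA
      set c := (1 - η ^ n) ^ m with hc
      have hc0 : 0 ≤ c := pow_nonneg hρ m
      set In : (Fin n → ι) → ℝ := fun a => ∑ b : Fin (n * m + s) → ι,
        if vec L (vec L v₀ (List.ofFn b)) (List.ofFn a) = v then
          ∏ t, p (Fin.natAdd n t) (b t) else 0 with hIn
      have h1 : ∀ a, In a ≤ c := by
        intro a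
        by_cases hex : ∃ b : Fin (n * m + s) → ι, vec L (vec L v₀ (List.ofFn b)) (List.ofFn a) = v
        · obtain ⟨b₀, hb₀⟩ := hex
          have := ih s (fun t => p (Fin.natAdd n t)) (fun t => hp _) (vec L v₀ (List.ofFn b₀))
          refine le_trans (le_of_eq ?_) this
          rw [hIn]
          unfold mass
          refine Finset.sum_congr rfl fun b _ => ?_
          have : (vec L (vec L v₀ (List.ofFn b)) (List.ofFn a) = v) ↔
              (vec L v₀ (List.ofFn b) = vec L v₀ (List.ofFn b₀)) := by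
            constructor
            · intro h
              rw [← hb₀] at h
              exact vec_inj L _ h
            · intro h
              rw [h, hb₀]
          simp only [this]
        · push Not at hex
          have : In a = 0 := by
            rw [hIn]
            exact Finset.sum_eq_zero fun b _ => if_neg (hex b)
          rw [this]
          exact hc0
      have h2 : In u = 0 ∨ In u' = 0 := by
        by_contra hcon
        push Not at hcon
        obtain ⟨hc1, hc2⟩ := hcon
        obtain ⟨b, -, hb⟩ := Finset.exists_ne_zero_of_sum_ne_zero hc1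
        obtain ⟨b', -, hb'⟩ := Finset.exists_ne_zero_of_sum_ne_zero hc2
        have hb1 : vec L (vec L v₀ (List.ofFn b)) (List.ofFn u) = v := by
          by_contra h
          rw [if_neg h] at hb
          exact hb rfl
        have hb2 : vec L (vec L v₀ (List.ofFn b')) (List.ofFn u') = v := by
          by_contra h
          rw [if_neg h] at hb'
          exact hb' rfl
        exact hu _ _ (vec_coprime L v₀ h₀ _) (vec_coprime L v₀ h₀ _) (hb1.trans hb2.symm)
      have hW : ∀ a : Fin n → ι, η ^ n ≤ ∏ t, p (Fin.castAdd (n * m + s) t) (a t) := by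
        intro a
        calc η ^ n = ∏ _t : Fin n, η := by rw [Finset.prod_const, Finset.card_univ, Fintype.card_fin]
          _ ≤ _ := Finset.prod_le_prod (fun _ _ => hη.le) (fun t _ => (hp _).1 _)
      have hW0 : ∀ a : Fin n → ι, 0 ≤ ∏ t, p (Fin.castAdd (n * m + s) t) (a t) := fun a =>
        (pow_nonneg hη.le n).trans (hW a)
      have h3 : ∀ a₀, In a₀ = 0 → ∑ a : Fin n → ι, (∏ t, p (Fin.castAdd (n * m + s) t) (a t)) * In a ≤
          (1 - η ^ n) * c := by
        intro a₀ ha₀
        have h4 : ∑ a : Fin n → ι, ((∏ t, p (Fin.castAdd (n * m + s) t) (a t)) * c -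
            if a = a₀ then (∏ t, p (Fin.castAdd (n * m + s) t) (a t)) * c else 0) =
            c - (∏ t, p (Fin.castAdd (n * m + s) t) (a₀ t)) * c := by
          rw [Finset.sum_sub_distrib, ← Finset.sum_mul,
            prod_law (fun t => p (Fin.castAdd (n * m + s) t)) (fun t => hp _), one_mul,
            Finset.sum_ite_eq' Finset.univ]
          simp
        calc ∑ a : Fin n → ι, (∏ t, p (Fin.castAdd (n * m + s) t) (a t)) * In a ≤ _ := by
              refine Finset.sum_le_sum fun a _ => ?_
              show _ ≤ (∏ t, p (Fin.castAdd (n * m + s) t) (a t)) * c -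
                if a = a₀ then (∏ t, p (Fin.castAdd (n * m + s) t) (a t)) * c else 0
              split_ifs with h
              · rw [h, ha₀]
                simp
              · rw [sub_zero]
                exact mul_le_mul_of_nonneg_left (h1 a) (hW0 a)
          _ = _ := h4
          _ ≤ (1 - η ^ n) * c := by
              have := mul_le_mul_of_nonneg_right (hW a₀) hc0
              linarith
      have h5 : (1 - η ^ n) ^ (m + 1) = (1 - η ^ n) * c := by rw [hc, pow_succ, mul_comm]
      rw [h5]
      rcases h2 with h | h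
      · exact h3 _ h
      · exact h3 _ h
    have hcast : ∀ (k k' : ℕ) (_h : k = k') (v : ℕ × ℕ),
        (∀ p : Fin k' → ι → ℝ, (∀ t, Law η (p t)) → mass L v₀ p v ≤ (1 - η ^ n) ^ (m + 1)) →
        ∀ p : Fin k → ι → ℝ, (∀ t, Law η (p t)) → mass L v₀ p v ≤ (1 - η ^ n) ^ (m + 1) := by
      rintro k k' rfl v H
      exact H
    exact hcast _ _ hk v key p hp

theorem mass_le' [Fintype ι] {η : ℝ} (hη : 0 < η) (hη1 : η ≤ 1) (L : ι → Letter) (v₀ : ℕ × ℕ)
    (h₀ : Nat.Coprime v₀.1 v₀.2) (n : ℕ) (hA : Apart L n) (k : ℕ) (p : Fin k → ι → ℝ)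
    (hp : ∀ t, Law η (p t)) (v : ℕ × ℕ) : mass L v₀ p v ≤ (1 - η ^ n) ^ (k / n) := by
  have h := mass_le hη hη1 L v₀ h₀ n hA (k / n) (k % n)
  have hk : n * (k / n) + k % n = k := Nat.div_add_mod k n
  rw [hk] at h
  exact h p hp v

end Pool.Agent.Run7.h492.EW
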