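import Pool.Agent.Run7.h492.EW.Prim

/-!
# Letters: matrices with nonnegative entries and determinant one or minus one
-/

set_option autoImplicit false

namespace Pool.Agent.Run7.h492.EW

open Finset

/-- a matrix with natural entries and determinant `± 1` -/
structure Letter where
  a : ℕ
  b : ℕ
  c : ℕ
  d : ℕ
  det : (a * d : ℤ) - b * c = 1 ∨ (a * d : ℤ) - b * c = -1

/-- the action on pairs -/
def Letter.ap {R : Type*} [CommSemiring R] (l : Letter) (v : R × R) : R × R :=
  ((l.a : R) * v.1 + l.b * v.2, (l.c : R) * v.1 + l.d * v.2)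

theorem Letter.inv {R : Type*} [CommRing R] (l : Letter) : ∃ s : R, s * s = 1 ∧
    (l.a : R) * l.d - l.b * l.c = s := by
  rcases l.det with h | h
  · refine ⟨1, by ring, ?_⟩
    have := congrArg (fun z : ℤ => (z : R)) h
    simpa using this
  · refine ⟨-1, by ring, ?_⟩
    have := congrArg (fun z : ℤ => (z : R)) h
    simpa using this

theorem Letter.coprime {R : Type*} [CommRing R] (l : Letter) (v : R × R) (h : IsCoprime v.1 v.2) :
    IsCoprime (l.ap v).1 (l.ap v).2 := by
  obtain ⟨s, hs, hdet⟩ := l.inv (R := R)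
  obtain ⟨p, q, hpq⟩ := h
  refine ⟨s * (p * l.d - q * l.c), s * (-(p * l.b) + q * l.a), ?_⟩
  unfold Letter.ap
  simp only
  have e1 : s * (p * l.d - q * l.c) * (l.a * v.1 + l.b * v.2) +
      s * (-(p * l.b) + q * l.a) * (l.c * v.1 + l.d * v.2) =
      s * ((l.a : R) * l.d - l.b * l.c) * (p * v.1 + q * v.2) := by ring
  rw [e1, hdet, hs, hpq, one_mul]

theorem Letter.ap_inj {R : Type*} [CommRing R] (l : Letter) {v w : R × R} (h : l.ap v = l.ap w) :
    v = w := by
  obtain ⟨s, hs, hdet⟩ := l.inv (R := R)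
  unfold Letter.ap at h
  rw [Prod.mk.injEq] at h
  obtain ⟨h1, h2⟩ := h
  have e1 : ∀ u : R × R, u.1 = s * (l.d * (l.a * u.1 + l.b * u.2) - l.b * (l.c * u.1 + l.d * u.2)) := by
    intro u
    have : s * (l.d * (l.a * u.1 + l.b * u.2) - l.b * (l.c * u.1 + l.d * u.2)) =
      s * ((l.a : R) * l.d - l.b * l.c) * u.1 := by ring
    rw [this, hdet, hs, one_mul]
  have e2 : ∀ u : R × R, u.2 = s * (-(l.c * (l.a * u.1 + l.b * u.2)) + l.a * (l.c * u.1 + l.d * u.2)) := by
    intro u
    have : s * (-(l.c * (l.a * u.1 + l.b * u.2)) + l.a * (l.c * u.1 + l.d * u.2)) =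
      s * ((l.a : R) * l.d - l.b * l.c) * u.2 := by ring
    rw [this, hdet, hs, one_mul]
  ext
  · rw [e1 v, e1 w, h1, h2]
  · rw [e2 v, e2 w, h1, h2]

/-- the permutation of the unimodular pairs modulo `M` -/
noncomputable def Letter.perm (l : Letter) (M : ℕ) [NeZero M] : Equiv.Perm (X M) :=
  Equiv.ofBijective (fun v => ⟨l.ap v.1, l.coprime v.1 v.2⟩) (by
    rw [← Finite.injective_iff_bijective]
    intro v w h
    apply Subtype.ext
    exact l.ap_inj (congrArg Subtype.val h))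

theorem Letter.perm_val (l : Letter) (M : ℕ) [NeZero M] (v : X M) : (l.perm M v).1 = l.ap v.1 := rfl

theorem Letter.coprime_nat (l : Letter) (v : ℕ × ℕ) (h : Nat.Coprime v.1 v.2) :
    Nat.Coprime (l.ap v).1 (l.ap v).2 := by
  have h1 : IsCoprime (v.1 : ℤ) (v.2 : ℤ) := Nat.isCoprime_iff_coprime.mpr h
  have h2 := l.coprime ((v.1 : ℤ), (v.2 : ℤ)) h1
  rw [← Nat.isCoprime_iff_coprime]
  unfold Letter.ap at h2 ⊢
  push_cast
  exact h2

/-- the vector of a word; the head of the list acts last -/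
def vec {ι : Type*} (L : ι → Letter) (v₀ : ℕ × ℕ) : List ι → ℕ × ℕ
  | [] => v₀
  | i :: w => (L i).ap (vec L v₀ w)

theorem vec_coprime {ι : Type*} (L : ι → Letter) (v₀ : ℕ × ℕ) (h : Nat.Coprime v₀.1 v₀.2)
    (w : List ι) : Nat.Coprime (vec L v₀ w).1 (vec L v₀ w).2 := by
  induction w with
  | nil => exact h
  | cons i w ih => exact (L i).coprime_nat _ ih

/-- the class of a coprime pair -/
def cl (M : ℕ) (v : ℕ × ℕ) (h : Nat.Coprime v.1 v.2) : X M :=
  ⟨((v.1 : ZMod M), (v.2 : ZMod M)), by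
    have h1 : IsCoprime (v.1 : ℤ) (v.2 : ℤ) := Nat.isCoprime_iff_coprime.mpr h
    have h2 := h1.map (Int.castRingHom (ZMod M))
    simpa using h2⟩

theorem cl_ap {M : ℕ} [NeZero M] (l : Letter) (v : ℕ × ℕ) (h : Nat.Coprime v.1 v.2) :
    cl M (l.ap v) (l.coprime_nat v h) = l.perm M (cl M v h) := by
  apply Subtype.ext
  rw [Letter.perm_val]
  unfold cl Letter.ap
  simp only
  push_cast
  rfl

/-- the sum over all words of length `k` -/
theorem word_sum {ι : Type*} [Fintype ι] {M : ℕ} [NeZero M] (L : ι → Letter) (v₀ : ℕ × ℕ)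
    (h₀ : Nat.Coprime v₀.1 v₀.2) (k : ℕ) :
    ∀ (p : Fin k → ι → ℝ) (φ : X M → ℝ),
    ∑ w : Fin k → ι, (∏ t, p t (w t)) * φ (cl M (vec L v₀ (List.ofFn w)) (vec_coprime L v₀ h₀ _)) =
      Ex (fun i => (L i).perm M) (List.ofFn p).reverse φ (cl M v₀ h₀) := by
  induction k with
  | zero =>
    intro p φ
    rw [Fintype.sum_unique]
    simp [Ex, vec]
  | succ k ih =>
    intro p φ
    rw [← Equiv.sum_comp (Fin.consEquiv (fun _ : Fin (k + 1) => ι))]
    rw [Fintype.sum_prod_type, Finset.sum_comm]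
    have h1 : ∀ w : Fin k → ι, ∑ i : ι, (∏ t, p t ((Fin.consEquiv (fun _ : Fin (k + 1) => ι)) (i, w) t)) *
        φ (cl M (vec L v₀ (List.ofFn ((Fin.consEquiv (fun _ : Fin (k + 1) => ι)) (i, w))))
          (vec_coprime L v₀ h₀ _)) =
        (∏ t, p (Fin.succ t) (w t)) * (Ex (fun i => (L i).perm M) [p 0] φ
          (cl M (vec L v₀ (List.ofFn w)) (vec_coprime L v₀ h₀ _))) := by
      intro w
      simp only [Ex]
      rw [Finset.mul_sum]
      refine Finset.sum_congr rfl fun i _ => ?_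
      rw [Fin.prod_univ_succ]
      have e1 : (Fin.consEquiv (fun _ : Fin (k + 1) => ι)) (i, w) = Fin.cons i w := rfl
      rw [e1]
      simp only [Fin.cons_zero, Fin.cons_succ]
      have e2 : cl M (vec L v₀ (List.ofFn (Fin.cons i w : Fin (k + 1) → ι))) (vec_coprime L v₀ h₀ _) =
          (L i).perm M (cl M (vec L v₀ (List.ofFn w)) (vec_coprime L v₀ h₀ _)) := by
        rw [← cl_ap]
        congr 1
        rw [List.ofFn_cons]
        rfl
      rw [e2]
      ring
    rw [Finset.sum_congr rfl fun w _ => h1 w, ih (fun t => p (Fin.succ t)), List.ofFn_succ,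
      List.reverse_cons, Ex_append]

end Pool.Agent.Run7.h492.EW
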