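import Pool.Agent.Run7.h492.EW.Conc
import Pool.Agent.N666.VE.FC

/-!
# The Fermat-Catalan equation with two bases given by a random word in matrices
-/

set_option autoImplicit false

namespace Pool.Agent.Run7.h492.EW

open Finset Filter
open Pool.Agent.N666.VE (BadPair CN cn_small)
open Pool.Agent.H374R2.Beal (Exceptional)
open Pool.Agent.H374R2.T (Good2)

/-- the hypotheses on a family of letters -/
structure Sys {ι : Type*} [Fintype ι] (L : ι → Letter) (v₀ : ℕ × ℕ) : Prop where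
  cop : Nat.Coprime v₀.1 v₀.2
  mix : ∀ (M : ℕ) [NeZero M], ∃ K : ℕ, ∀ x y : X M, ∃ w : List ι,
    w.length = K ∧ act (fun i => (L i).perm M) w x = y
  apart : ∃ n, Apart L n

theorem vec_size {ι : Type*} [Fintype ι] (L : ι → Letter) (v₀ : ℕ × ℕ) :
    ∃ C : ℕ, 2 ≤ C ∧ ∀ w : List ι,
      (vec L v₀ w).1 ≤ C ^ (w.length + 1) ∧ (vec L v₀ w).2 ≤ C ^ (w.length + 1) := by
  classical
  set C : ℕ := ∑ i, ((L i).a + (L i).b + (L i).c + (L i).d) + v₀.1 + v₀.2 + 2 with hC
  have hi : ∀ i, (L i).a + (L i).b + (L i).c + (L i).d ≤ C := by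
    intro i
    have := Finset.single_le_sum (f := fun i => (L i).a + (L i).b + (L i).c + (L i).d)
      (fun _ _ => Nat.zero_le _) (Finset.mem_univ i)
    omega
  refine ⟨C, by omega, fun w => ?_⟩
  induction w with
  | nil =>
    simp only [vec, List.length_nil, zero_add, pow_one]
    omega
  | cons i w ih =>
    obtain ⟨h1, h2⟩ := ih
    have h3 := hi i
    simp only [vec, Letter.ap, List.length_cons, Nat.cast_id]
    set P := C ^ (w.length + 1) with hP
    have h4 : C ^ (w.length + 1 + 1) = C * P := by rw [hP, pow_succ, mul_comm]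
    rw [h4]
    constructor
    · calc (L i).a * (vec L v₀ w).1 + (L i).b * (vec L v₀ w).2 ≤ (L i).a * P + (L i).b * P :=
            Nat.add_le_add (Nat.mul_le_mul_left _ h1) (Nat.mul_le_mul_left _ h2)
        _ = ((L i).a + (L i).b) * P := by ring
        _ ≤ C * P := Nat.mul_le_mul_right _ (by omega)
    · calc (L i).c * (vec L v₀ w).1 + (L i).d * (vec L v₀ w).2 ≤ (L i).c * P + (L i).d * P :=
            Nat.add_le_add (Nat.mul_le_mul_left _ h1) (Nat.mul_le_mul_left _ h2)
        _ = ((L i).c + (L i).d) * P := by ring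
        _ ≤ C * P := Nat.mul_le_mul_right _ (by omega)

theorem Law.mono {ι : Type*} [Fintype ι] {η η' : ℝ} (h : η' ≤ η) {q : ι → ℝ} (hq : Law η q) :
    Law η' q := ⟨fun i => h.trans (hq.1 i), hq.2⟩

theorem main {ι : Type*} [Fintype ι] (L : ι → Letter) (v₀ : ℕ × ℕ) (h : Sys L v₀) (η₀ : ℝ)
    (hη₀ : 0 < η₀) : ∃ κ : ℝ, 0 < κ ∧ ∀ ε : ℝ, 0 < ε → ∃ k₀ : ℕ, ∀ k : ℕ, k₀ ≤ k →
      ∀ p : Fin k → ι → ℝ, (∀ t, Law η₀ (p t)) →
      ∀ (B : (Fin k → ι) → Prop) [DecidablePred B],
      (∀ w, B w → BadPair (Real.exp (Real.exp (κ * k))) (vec L v₀ (List.ofFn w)).1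
        (vec L v₀ (List.ofFn w)).2) →
      ∑ w ∈ Finset.univ.filter B, ∏ t, p t (w t) ≤ ε := by
  classical
  set η : ℝ := min η₀ (1 / 2) with hηd
  have hη : 0 < η := lt_min hη₀ (by norm_num)
  have hη2 : η ≤ 1 / 2 := min_le_right _ _
  obtain ⟨n₀, hA⟩ := h.apart
  have hn₀ : n₀ ≠ 0 := by
    rintro rfl
    obtain ⟨u, u', hu⟩ := hA
    apply hu (0, 1) (0, 1) (by simp) (by simp)
    rw [List.ofFn_zero, List.ofFn_zero]
  have hn₀' : (0 : ℝ) < n₀ := by exact_mod_cast Nat.pos_of_ne_zero hn₀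
  obtain ⟨C, hC2, hC⟩ := vec_size L v₀
  have hC2' : (2 : ℝ) ≤ C := by exact_mod_cast hC2
  have hC0 : (0 : ℝ) < C := by linarith
  have hlC : 0 < Real.log C := Real.log_pos (by linarith)
  set ρ : ℝ := 1 - η ^ n₀ with hρ
  have hηn : 0 < η ^ n₀ := pow_pos hη n₀
  have hηn1 : η ^ n₀ < 1 := pow_lt_one₀ hη.le (by linarith) hn₀
  have hρ0 : 0 < ρ := by rw [hρ]; linarith
  have hρ1 : ρ < 1 := by rw [hρ]; linarith
  have hlρ : Real.log ρ < 0 := Real.log_neg hρ0 hρ1
  set ε₁ : ℝ := -Real.log ρ / (2 * n₀ * Real.log C) with hε₁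
  have hε₁0 : 0 < ε₁ := div_pos (by linarith) (by positivity)
  obtain ⟨R, c, N₂, hc, hL⟩ := Pool.Agent.N741.LD.main ε₁ hε₁0
  refine ⟨c * Real.log C, by positivity, fun ε hε => ?_⟩
  obtain ⟨M, hM, S, hS1, hS2, hS3⟩ := cn_small R (ε / 16) (by positivity)
  have : NeZero M := ⟨hM.ne'⟩
  have hM0 : (0 : ℝ) < M := by exact_mod_cast hM
  obtain ⟨K, hK⟩ := h.mix M
  have : Nonempty (X M) := ⟨cl M v₀ h.cop⟩
  have hθ0 : 0 < η ^ K := pow_pos hη K
  obtain ⟨n, hn⟩ := exists_pow_lt_of_lt_one (show (0 : ℝ) < ε / 4 by positivity)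
    (show 1 - η ^ K < 1 by linarith)
  -- the constant for the large exponents
  set b : ℝ := (C : ℝ) ^ ε₁ with hb
  have hb0 : 0 < b := Real.rpow_pos_of_pos hC0 _
  have hb1 : 1 ≤ b := Real.one_le_rpow (by linarith) hε₁0.le
  have hbn0 : 0 < b ^ n₀ := pow_pos hb0 _
  have hbρ : b ^ n₀ * ρ < 1 := by
    have e1 : b ^ n₀ = Real.exp (-Real.log ρ / 2) := by
      rw [hb, Real.rpow_def_of_pos hC0, ← Real.exp_nat_mul, hε₁]
      congr 1
      field_simp
    rw [e1]
    nth_rewrite 2 [← Real.exp_log hρ0]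
    rw [← Real.exp_add, Real.exp_lt_one_iff]
    linarith
  have hbρ0 : 0 ≤ b ^ n₀ * ρ := by positivity
  obtain ⟨k₁, hk₁⟩ := exists_pow_lt_of_lt_one (show (0 : ℝ) < ε / (2 * b ^ n₀) by positivity) hbρ
  refine ⟨n * K + N₂ + n₀ * k₁, fun k hk p hp B _ hB => ?_⟩
  have hp' : ∀ t, Law η (p t) := fun t => (hp t).mono (min_le_left _ _)
  set N' : ℕ := C ^ (k + 1) with hN'
  have hN'2 : N₂ ≤ N' := by
    have : k + 1 < C ^ (k + 1) := Nat.lt_pow_self (by omega)
    omega
  obtain ⟨hfin, hnc⟩ := hL N' hN'2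
  set Q : Set (ℕ × ℕ × ℕ × ℕ × ℕ) := Pool.Agent.N741.LD.Sols N' R (Real.exp ((N' : ℝ) ^ c)) with hQ
  set T : Finset (ℕ × ℕ) := hfin.toFinset.image (fun v => (v.1, v.2.1)) with hT
  have hTc : (T.card : ℝ) ≤ b ^ (k + 1) := by
    have h1 : T.card ≤ Q.ncard := by
      rw [Set.ncard_eq_toFinset_card Q hfin]
      exact Finset.card_image_le
    have h2 : (T.card : ℝ) ≤ (N' : ℝ) ^ ε₁ := by
      refine le_trans ?_ hnc
      exact_mod_cast h1
    refine h2.trans (le_of_eq ?_)
    rw [hN', hb]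
    push_cast
    rw [← Real.rpow_natCast, ← Real.rpow_mul hC0.le, ← Real.rpow_natCast, ← Real.rpow_mul hC0.le]
    congr 1
    ring
  set V : (Fin k → ι) → ℕ × ℕ := fun w => vec L v₀ (List.ofFn w) with hV
  have hVc : ∀ w, Nat.Coprime (V w).1 (V w).2 := fun w => vec_coprime L v₀ h.cop _
  set W : (Fin k → ι) → ℝ := fun w => ∏ t, p t (w t) with hW
  have hW0 : ∀ w, 0 ≤ W w := fun w => Finset.prod_nonneg fun t _ => hη.le.trans ((hp' t).1 _)
  set φ : X M → ℝ := fun x => if (x.1.1.val, x.1.2.val) ∈ S then 1 else 0 with hφ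
  have hφ0 : ∀ x, 0 ≤ φ x := fun x => by rw [hφ]; simp only; split_ifs <;> norm_num
  have hφ1 : ∀ x, φ x ≤ 1 := fun x => by rw [hφ]; simp only; split_ifs <;> norm_num
  -- the mean of `φ`
  have hmean : (∑ x, φ x) / Fintype.card (X M) ≤ ε / 4 := by
    have h1 : ∑ x, φ x ≤ S.card := by
      rw [hφ]
      simp only
      rw [Finset.sum_ite, Finset.sum_const_zero, add_zero, Finset.sum_const, nsmul_eq_mul, mul_one]
      have : (Finset.univ.filter fun x : X M => (x.1.1.val, x.1.2.val) ∈ S).card ≤ S.card := by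
        apply Finset.card_le_card_of_injOn (fun x => (x.1.1.val, x.1.2.val))
        · intro x hx
          rw [Finset.mem_coe, Finset.mem_filter] at hx
          exact hx.2
        · rintro ⟨⟨x, y⟩, hxy⟩ _ ⟨⟨x', y'⟩, hxy'⟩ _ h
          simp only [Prod.mk.injEq] at h
          apply Subtype.ext
          rw [Prod.mk.injEq]
          exact ⟨ZMod.val_injective _ h.1, ZMod.val_injective _ h.2⟩
      exact_mod_cast this
    have h2 := card_X M
    have h3 : (0 : ℝ) < Fintype.card (X M) := by exact_mod_cast Fintype.card_pos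
    rw [div_le_iff₀ h3]
    nlinarith
  -- small exponents
  have hsmall : ∑ w, W w * φ (cl M (V w) (hVc w)) ≤ ε / 2 := by
    have h1 := word_sum (M := M) L v₀ h.cop k p φ
    have h2 := Ex_le_mean hη.le (by linarith) (fun i => (L i).perm M) hK n (List.ofFn p).reverse
      (by
        intro q hq
        rw [List.mem_reverse, List.mem_ofFn] at hq
        obtain ⟨t, rfl⟩ := hq
        exact hp' t) (by rw [List.length_reverse, List.length_ofFn]; omega) φ hφ0 hφ1 (cl M v₀ h.cop)
    rw [← h1] at h2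
    refine h2.trans ?_
    linarith
  -- large exponents
  have hlarge : ∑ w ∈ Finset.univ.filter (fun w => V w ∈ T), W w ≤ ε / 2 := by
    have h1 : ∑ w ∈ Finset.univ.filter (fun w => V w ∈ T), W w = ∑ v ∈ T, mass L v₀ p v := by
      unfold mass
      rw [Finset.sum_comm, Finset.sum_filter]
      refine Finset.sum_congr rfl fun w _ => ?_
      rw [Finset.sum_ite_eq]
    set m := k / n₀ with hm
    have hkm : k + 1 ≤ n₀ * (m + 1) := by
      have h8 := Nat.lt_mul_div_succ k (Nat.pos_of_ne_zero hn₀)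
      rw [← hm] at h8
      exact h8
    have hk1m : k₁ ≤ m := by
      rw [hm, Nat.le_div_iff_mul_le (Nat.pos_of_ne_zero hn₀), mul_comm]
      omega
    rw [h1]
    calc ∑ v ∈ T, mass L v₀ p v ≤ ∑ _v ∈ T, ρ ^ m := Finset.sum_le_sum fun v _ =>
          mass_le' hη (by linarith) L v₀ h.cop n₀ hA k p hp' v
      _ = (T.card : ℝ) * ρ ^ m := by rw [Finset.sum_const, nsmul_eq_mul]
      _ ≤ b ^ (k + 1) * ρ ^ m := by gcongr
      _ ≤ b ^ (n₀ * (m + 1)) * ρ ^ m := by
          gcongr
      _ = b ^ n₀ * (b ^ n₀ * ρ) ^ m := by rw [mul_pow, pow_mul, pow_succ]; ring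
      _ ≤ b ^ n₀ * (b ^ n₀ * ρ) ^ k₁ := by
          refine mul_le_mul_of_nonneg_left ?_ hbn0.le
          exact pow_le_pow_of_le_one hbρ0 hbρ.le hk1m
      _ ≤ b ^ n₀ * (ε / (2 * b ^ n₀)) := mul_le_mul_of_nonneg_left hk₁.le hbn0.le
      _ = ε / 2 := by field_simp
  -- covering
  have hcover : ∀ w, B w → W w ≤ W w * φ (cl M (V w) (hVc w)) + (if V w ∈ T then W w else 0) := by
    intro w hw
    obtain ⟨z, x, y, r, hx0, hy0, hco, hz, hzW, hx, hy, hr, hpar, heq⟩ := hB w hw
    have hcase : V w ∈ ({p | ∃ n, 3 ≤ n ∧ n < R ∧ p ∈ Exceptional n} ∪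
        ({p | ¬ Good2 p.1 p.2} ∪ Prod.swap ⁻¹' {p | ¬ Good2 p.1 p.2}) : Set (ℕ × ℕ)) ∨ V w ∈ T := by
      rcases Nat.lt_or_ge r R with hrR | hrR
      · left
        rcases Nat.lt_or_ge r 3 with hr3 | hr3
        · have hr2 : r = 2 := by omega
          right
          by_contra hcon
          rw [Set.mem_union, not_or] at hcon
          obtain ⟨h1, h2⟩ := hcon
          simp only [Set.mem_ofPred_eq, not_not, Set.mem_preimage, Prod.swap, ] at h1 h2
          rw [hr2] at heq
          have e1 : 2 ∣ y := Pool.Agent.H374R2.T.Good2.even (m := 1) (w := z) (x := x) h1 (by omega)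
            (by rw [mul_one]; exact heq)
          have e2 : 2 ∣ x := Pool.Agent.H374R2.T.Good2.even (m := 1) (w := z) (x := y) h2 (by omega)
            (by
              rw [mul_one]
              rcases heq with h | h | h
              · left; rw [add_comm]; exact h
              · right; right; exact h
              · right; left; exact h)
          rcases hpar with h | h | h
          · omega
          · exact h e2
          · exact h e1
        · left
          exact ⟨r, hr3, hrR, hx0, hy0, hco, x, y, z, by omega, by omega, by omega, heq⟩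
      · right
        rw [hT, Finset.mem_image]
        refine ⟨((V w).1, (V w).2, (V w).1 ^ x, (V w).2 ^ y, z ^ r), ?_, rfl⟩
        rw [Set.Finite.mem_toFinset, hQ]
        have hsz := hC (List.ofFn w)
        rw [List.length_ofFn] at hsz
        refine ⟨(V w).1, (V w).2, z, x, y, r, hx0, hsz.1, hy0, hsz.2, hco, hz, ?_, hx, hy, hrR, heq, rfl⟩
        refine hzW.trans ?_
        rw [Real.exp_le_exp, hN']
        push_cast
        rw [← Real.rpow_natCast, ← Real.rpow_mul hC0.le, Real.rpow_def_of_pos hC0, Real.exp_le_exp]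
        push_cast
        have : (0 : ℝ) ≤ k := Nat.cast_nonneg _
        nlinarith [mul_pos hc hlC]
    rcases hcase with hcase | hcase
    · have h1 := hS3 _ hcase
      have h2 : φ (cl M (V w) (hVc w)) = 1 := by
        rw [hφ]
        simp only [cl, ZMod.val_natCast]
        rw [if_pos h1]
      rw [h2, mul_one]
      have : (0 : ℝ) ≤ if V w ∈ T then W w else 0 := by
        split_ifs
        · exact hW0 w
        · exact le_rfl
      linarith
    · rw [if_pos hcase]
      have := mul_nonneg (hW0 w) (hφ0 (cl M (V w) (hVc w)))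
      linarith
  calc ∑ w ∈ Finset.univ.filter B, W w ≤ ∑ w ∈ Finset.univ.filter B,
        (W w * φ (cl M (V w) (hVc w)) + (if V w ∈ T then W w else 0)) := by
        refine Finset.sum_le_sum fun w hw => ?_
        rw [Finset.mem_filter] at hw
        exact hcover w hw.2
    _ ≤ ∑ w, (W w * φ (cl M (V w) (hVc w)) + (if V w ∈ T then W w else 0)) := by
        refine Finset.sum_le_sum_of_subset_of_nonneg (Finset.subset_univ _) fun w _ _ => ?_
        have h1 := mul_nonneg (hW0 w) (hφ0 (cl M (V w) (hVc w)))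
        have : (0 : ℝ) ≤ if V w ∈ T then W w else 0 := by
          split_ifs
          · exact hW0 w
          · exact le_rfl
        linarith
    _ = ∑ w, W w * φ (cl M (V w) (hVc w)) + ∑ w ∈ Finset.univ.filter (fun w => V w ∈ T), W w := by
        rw [Finset.sum_add_distrib, Finset.sum_filter]
    _ ≤ ε / 2 + ε / 2 := add_le_add hsmall hlarge
    _ = ε := by ring

end Pool.Agent.Run7.h492.EW
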