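import Mathlib

/-!
# Random words acting by permutations of a finite set: mixing, uniformly in the laws of the letters
-/

set_option autoImplicit false

namespace Pool.Agent.Run7.h492.EW

open Finset

variable {X ι : Type*}

/-- the action of a word, first letter first -/
def act (f : ι → Equiv.Perm X) : List ι → X → X
  | [], x => x
  | i :: w, x => act f w (f i x)

theorem act_append (f : ι → Equiv.Perm X) (v w : List ι) (x : X) :
    act f (v ++ w) x = act f w (act f v x) := by
  induction v generalizing x with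
  | nil => rfl
  | cons i v ih => exact ih _

/-- the average of `φ` over random words with independent letters -/
noncomputable def Ex [Fintype ι] (f : ι → Equiv.Perm X) : List (ι → ℝ) → (X → ℝ) → X → ℝ
  | [], φ, x => φ x
  | q :: P, φ, x => ∑ i, q i * Ex f P φ (f i x)

theorem Ex_append [Fintype ι] (f : ι → Equiv.Perm X) (P Q : List (ι → ℝ)) (φ : X → ℝ) (x : X) :
    Ex f (P ++ Q) φ x = Ex f P (Ex f Q φ) x := by
  induction P generalizing x with
  | nil => rfl
  | cons q P ih =>
    simp only [List.cons_append, Ex]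
    exact Finset.sum_congr rfl fun i _ => by rw [ih]

/-- laws of the letters giving mass at least `η` to every letter -/
def Law [Fintype ι] (η : ℝ) (q : ι → ℝ) : Prop := (∀ i, η ≤ q i) ∧ ∑ i, q i = 1

theorem Ex_le [Fintype ι] {η : ℝ} (hη : 0 ≤ η) (f : ι → Equiv.Perm X) (P : List (ι → ℝ))
    (hP : ∀ q ∈ P, Law η q) (φ : X → ℝ) (B : ℝ) (hB : ∀ x, φ x ≤ B) (x : X) : Ex f P φ x ≤ B := by
  induction P generalizing x with
  | nil => exact hB x
  | cons q P ih =>
    have hq := hP q (List.mem_cons_self ..)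
    simp only [Ex]
    calc ∑ i, q i * Ex f P φ (f i x) ≤ ∑ i, q i * B := by
          refine Finset.sum_le_sum fun i _ => mul_le_mul_of_nonneg_left ?_ (hη.trans (hq.1 i))
          exact ih (fun q' h' => hP q' (List.mem_cons_of_mem _ h')) _
      _ = B := by rw [← Finset.sum_mul, hq.2, one_mul]

theorem le_Ex [Fintype ι] {η : ℝ} (hη : 0 ≤ η) (f : ι → Equiv.Perm X) (P : List (ι → ℝ))
    (hP : ∀ q ∈ P, Law η q) (φ : X → ℝ) (B : ℝ) (hB : ∀ x, B ≤ φ x) (x : X) : B ≤ Ex f P φ x := by
  induction P generalizing x with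
  | nil => exact hB x
  | cons q P ih =>
    have hq := hP q (List.mem_cons_self ..)
    simp only [Ex]
    calc B = ∑ i, q i * B := by rw [← Finset.sum_mul, hq.2, one_mul]
      _ ≤ ∑ i, q i * Ex f P φ (f i x) := by
          refine Finset.sum_le_sum fun i _ => mul_le_mul_of_nonneg_left ?_ (hη.trans (hq.1 i))
          exact ih (fun q' h' => hP q' (List.mem_cons_of_mem _ h')) _

/-- the Doeblin bound -/
theorem Ex_doeblin [Fintype ι] {η : ℝ} (hη : 0 ≤ η) (f : ι → Equiv.Perm X) (P : List (ι → ℝ))
    (hP : ∀ q ∈ P, Law η q) (φ : X → ℝ) (B : ℝ) (hB : ∀ x, φ x ≤ B) (x : X) (w : List ι)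
    (hw : w.length = P.length) :
    Ex f P φ x ≤ B - η ^ P.length * (B - φ (act f w x)) := by
  classical
  induction P generalizing x w with
  | nil =>
    rw [List.length_nil, List.length_eq_zero_iff] at hw
    subst hw
    simp [Ex, act]
  | cons q P ih =>
    obtain ⟨i₀, w, rfl⟩ : ∃ i w', w = i :: w' := by
      cases w with
      | nil => simp at hw
      | cons i w => exact ⟨i, w, rfl⟩
    have hq := hP q (List.mem_cons_self ..)
    have hP' : ∀ q' ∈ P, Law η q' := fun q' h' => hP q' (List.mem_cons_of_mem _ h')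
    have hw' : w.length = P.length := by simpa using hw
    simp only [Ex, act]
    set y := act f w (f i₀ x) with hy
    have h1 : ∀ i, q i * Ex f P φ (f i x) ≤
        q i * B - (if i = i₀ then q i * (η ^ P.length * (B - φ y)) else 0) := by
      intro i
      have hqi : 0 ≤ q i := hη.trans (hq.1 i)
      split_ifs with h
      · subst h
        have := ih hP' (f i x) w hw'
        nlinarith
      · rw [sub_zero]
        exact mul_le_mul_of_nonneg_left (Ex_le hη f P hP' φ B hB _) hqi
    have h2 : ∑ i, (q i * B - (if i = i₀ then q i * (η ^ P.length * (B - φ y)) else 0)) =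
        B - q i₀ * (η ^ P.length * (B - φ y)) := by
      rw [Finset.sum_sub_distrib, ← Finset.sum_mul, hq.2, one_mul, Finset.sum_ite_eq' Finset.univ]
      simp
    calc ∑ i, q i * Ex f P φ (f i x) ≤ _ := Finset.sum_le_sum fun i _ => h1 i
      _ = _ := h2
      _ ≤ _ := by
        rw [List.length_cons, pow_succ]
        have h3 : 0 ≤ η ^ P.length * (B - φ y) := mul_nonneg (pow_nonneg hη _) (by linarith [hB y])
        have h4 := mul_le_mul_of_nonneg_right (hq.1 i₀) h3
        nlinarith

/-- the average over the set is preserved -/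
theorem sum_Ex [Fintype ι] [Fintype X] {η : ℝ} (f : ι → Equiv.Perm X) (P : List (ι → ℝ))
    (hP : ∀ q ∈ P, Law η q) (φ : X → ℝ) : ∑ x, Ex f P φ x = ∑ x, φ x := by
  induction P with
  | nil => rfl
  | cons q P ih =>
    have hq := hP q (List.mem_cons_self ..)
    simp only [Ex]
    rw [Finset.sum_comm]
    have h1 : ∀ i, ∑ x, q i * Ex f P φ (f i x) = q i * ∑ x, φ x := by
      intro i
      rw [← Finset.mul_sum, ← ih fun q' h' => hP q' (List.mem_cons_of_mem _ h')]
      congr 1
      exact Equiv.sum_comp (f i) (fun x => Ex f P φ x)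
    rw [Finset.sum_congr rfl fun i _ => h1 i, ← Finset.sum_mul, hq.2, one_mul]

/-- the oscillation decreases -/
theorem osc_block [Fintype ι] {η : ℝ} (hη : 0 ≤ η) (f : ι → Equiv.Perm X)
    {K : ℕ} (hK : ∀ x y : X, ∃ w : List ι, w.length = K ∧ act f w x = y) (P : List (ι → ℝ))
    (hP : ∀ q ∈ P, Law η q) (hPK : P.length = K) (φ : X → ℝ) (a D : ℝ)
    (hD : ∀ x, φ x ≤ a + D) (x₀ : X) (hx₀ : φ x₀ = a) (x : X) :
    Ex f P φ x ≤ a + (1 - η ^ K) * D := by
  obtain ⟨w, hw, hwx⟩ := hK x x₀
  have h := Ex_doeblin hη f P hP φ (a + D) hD x w (by rw [hw, hPK])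
  rw [hwx, hx₀, hPK] at h
  linarith

/-- the oscillation of the average over long words is small -/
theorem osc_long [Fintype ι] [Fintype X] [Nonempty X] {η : ℝ} (hη : 0 ≤ η) (hη1 : η ≤ 1)
    (f : ι → Equiv.Perm X)
    {K : ℕ} (hK : ∀ x y : X, ∃ w : List ι, w.length = K ∧ act f w x = y) (n : ℕ) :
    ∀ (P : List (ι → ℝ)), (∀ q ∈ P, Law η q) → n * K ≤ P.length → ∀ (φ : X → ℝ),
    (∀ x, 0 ≤ φ x) → (∀ x, φ x ≤ 1) → ∀ x y, Ex f P φ x ≤ Ex f P φ y + (1 - η ^ K) ^ n := by
  have hc : 0 ≤ 1 - η ^ K := by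
    have := pow_le_one₀ (n := K) hη hη1
    linarith
  induction n with
  | zero =>
    intro P hP _ φ h0 h1 x y
    have h2 := Ex_le hη f P hP φ 1 h1 x
    have h3 := le_Ex hη f P hP φ 0 h0 y
    rw [pow_zero]
    linarith
  | succ n ih =>
    intro P hP hPl φ h0 h1 x y
    have hl : K ≤ P.length := by nlinarith
    obtain ⟨P₁, P₂, rfl, hP₁⟩ : ∃ P₁ P₂, P = P₁ ++ P₂ ∧ P₁.length = K :=
      ⟨P.take K, P.drop K, (List.take_append_drop K P).symm, by rw [List.length_take]; omega⟩
    have hP1 : ∀ q ∈ P₁, Law η q := fun q h => hP q (List.mem_append_left _ h)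
    have hP2 : ∀ q ∈ P₂, Law η q := fun q h => hP q (List.mem_append_right _ h)
    have h2 := ih P₂ hP2 (by
      rw [List.length_append, hP₁] at hPl
      nlinarith) φ h0 h1
    rw [Ex_append, Ex_append]
    set ψ := Ex f P₂ φ with hψ
    obtain ⟨x₀, hx₀⟩ := Finite.exists_min ψ
    have h3 := osc_block hη f hK P₁ hP1 hP₁ ψ (ψ x₀) ((1 - η ^ K) ^ n)
      (fun z => h2 z x₀) x₀ rfl x
    have h4 := le_Ex hη f P₁ hP1 ψ (ψ x₀) hx₀ y
    rw [pow_succ]
    linarith

/-- the average over long words is almost the mean -/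
theorem Ex_le_mean [Fintype ι] [Fintype X] [Nonempty X] {η : ℝ} (hη : 0 ≤ η) (hη1 : η ≤ 1)
    (f : ι → Equiv.Perm X)
    {K : ℕ} (hK : ∀ x y : X, ∃ w : List ι, w.length = K ∧ act f w x = y) (n : ℕ)
    (P : List (ι → ℝ)) (hP : ∀ q ∈ P, Law η q) (hPl : n * K ≤ P.length) (φ : X → ℝ)
    (h0 : ∀ x, 0 ≤ φ x) (h1 : ∀ x, φ x ≤ 1) (x : X) :
    Ex f P φ x ≤ (∑ y, φ y) / Fintype.card X + (1 - η ^ K) ^ n := by
  have h := osc_long hη hη1 f hK n P hP hPl φ h0 h1 x
  have hc : (0 : ℝ) < Fintype.card X := by exact_mod_cast Fintype.card_pos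
  have h2 : ∑ _y : X, Ex f P φ x ≤ ∑ y : X, (Ex f P φ y + (1 - η ^ K) ^ n) :=
    Finset.sum_le_sum fun y _ => h y
  rw [Finset.sum_add_distrib, sum_Ex f P hP φ, Finset.sum_const, Finset.sum_const, Finset.card_univ,
    nsmul_eq_mul, nsmul_eq_mul] at h2
  have h3 : Ex f P φ x = (Fintype.card X * Ex f P φ x) / Fintype.card X := by field_simp
  rw [h3, div_add' _ _ _ hc.ne']
  gcongr
  linarith

/-! ### the words of a given length between two points -/

/-- the points reached by the words of length `k` -/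
def Rch [Fintype ι] [DecidableEq X] (f : ι → Equiv.Perm X) (x : X) : ℕ → Finset X
  | 0 => {x}
  | k + 1 => Finset.univ.biUnion fun i : ι => (Rch f x k).image (f i)

theorem mem_Rch [Fintype ι] [DecidableEq X] (f : ι → Equiv.Perm X) (x : X) (k : ℕ) {y : X}
    (h : y ∈ Rch f x k) : ∃ w : List ι, w.length = k ∧ act f w x = y := by
  induction k generalizing y with
  | zero =>
    rw [Rch, Finset.mem_singleton] at h
    exact ⟨[], rfl, h.symm⟩
  | succ k ih =>
    rw [Rch, Finset.mem_biUnion] at h
    obtain ⟨i, -, h⟩ := h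
    rw [Finset.mem_image] at h
    obtain ⟨z, hz, rfl⟩ := h
    obtain ⟨w, hw, rfl⟩ := ih hz
    refine ⟨w ++ [i], by simp [hw], ?_⟩
    rw [act_append]
    rfl

/-- **Mixing.** Suppose that some point `v` can be reached from every point, and that `v` stays in
every sequence of sets on which all letters act as the shift. Then for some `K` every point is reached
from every point by a word of length exactly `K`. -/
theorem mixing [Fintype ι] [Nonempty ι] [Fintype X] [DecidableEq X] (f : ι → Equiv.Perm X) (v : X)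
    (hv : ∀ x, ∃ w : List ι, act f w x = v)
    (hp : ∀ B : ℕ → Finset X, (∀ k i, (B k).image (f i) = B (k + 1)) → ∀ k, v ∈ B k → v ∈ B (k + 1)) :
    ∃ K : ℕ, ∀ x y : X, ∃ w : List ι, w.length = K ∧ act f w x = y := by
  classical
  have key : ∀ x : X, ∃ k₀, ∀ k, k₀ ≤ k → Rch f x k = Finset.univ := by
    intro x
    have hne : ∀ k, (Rch f x k).Nonempty := by
      intro k
      induction k with
      | zero => exact ⟨x, by rw [Rch]; exact Finset.mem_singleton_self x⟩
      | succ k ih =>
        obtain ⟨y, hy⟩ := ih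
        obtain ⟨i⟩ := (inferInstance : Nonempty ι)
        exact ⟨f i y, by
          rw [Rch, Finset.mem_biUnion]
          exact ⟨i, Finset.mem_univ _, Finset.mem_image_of_mem _ hy⟩⟩
    have hsub : ∀ k i, (Rch f x k).image (f i) ⊆ Rch f x (k + 1) := by
      intro k i y hy
      rw [Rch, Finset.mem_biUnion]
      exact ⟨i, Finset.mem_univ _, hy⟩
    have hci : ∀ k i, ((Rch f x k).image (f i)).card = (Rch f x k).card := fun k i =>
      Finset.card_image_of_injective _ (f i).injective
    have hmono : Monotone fun k => (Rch f x k).card := by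
      refine monotone_nat_of_le_succ fun k => ?_
      obtain ⟨i⟩ := (inferInstance : Nonempty ι)
      have := Finset.card_le_card (hsub k i)
      rw [hci] at this
      exact this
    obtain ⟨k₀, hk₀⟩ : ∃ k₀, ∀ k, k₀ ≤ k → (Rch f x k).card = (Rch f x k₀).card := by
      have hb : ∀ k, (Rch f x k).card ≤ Fintype.card X := fun k => Finset.card_le_univ _
      have hfin : (Set.range fun k => (Rch f x k).card).Finite :=
        (Set.finite_Iic (Fintype.card X)).subset (by rintro _ ⟨k, rfl⟩; exact hb k)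
      obtain ⟨m, hm1, hm⟩ := hfin.toFinset.exists_max_image id
        ⟨(Rch f x 0).card, by rw [Set.Finite.mem_toFinset]; exact ⟨0, rfl⟩⟩
      rw [Set.Finite.mem_toFinset] at hm1
      obtain ⟨k₀, rfl⟩ := hm1
      refine ⟨k₀, fun k hk => le_antisymm ?_ (hmono hk)⟩
      exact hm ((Rch f x k).card) (by rw [Set.Finite.mem_toFinset]; exact ⟨k, rfl⟩)
    have hB : ∀ k i, (Rch f x (k₀ + k)).image (f i) = Rch f x (k₀ + (k + 1)) := by
      intro k i
      refine Finset.eq_of_subset_of_card_le (hsub (k₀ + k) i) ?_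
      rw [hci, hk₀ _ (by omega), hk₀ (k₀ + k) (by omega)]
    refine ⟨k₀, fun k hk => ?_⟩
    obtain ⟨j, rfl⟩ := Nat.exists_eq_add_of_le hk
    -- propagate membership along words
    have hmem : ∀ (B : ℕ → Finset X), (∀ k i, (B k).image (f i) = B (k + 1)) →
        ∀ (w : List ι) (k : ℕ) (y : X), y ∈ B k → act f w y ∈ B (k + w.length) := by
      intro B hB w
      induction w with
      | nil => intro k y hy; exact hy
      | cons i w ih =>
        intro k y hy
        have h1 : f i y ∈ B (k + 1) := by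
          rw [← hB k i]
          exact Finset.mem_image_of_mem _ hy
        have h2 := ih (k + 1) (f i y) h1
        rw [List.length_cons]
        have h3 : k + (w.length + 1) = k + 1 + w.length := by omega
        rw [h3]
        exact h2
    have hpers : ∀ (B : ℕ → Finset X), (∀ k i, (B k).image (f i) = B (k + 1)) →
        ∀ k n, v ∈ B k → v ∈ B (k + n) := by
      intro B hB k n h
      induction n with
      | zero => exact h
      | succ n ih => exact hp B hB (k + n) ih
    by_contra hcon
    set B : ℕ → Finset X := fun k => Rch f x (k₀ + j + k) with hBdef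
    have hB' : ∀ k i, (B k).image (f i) = B (k + 1) := by
      intro k i
      have := hB (j + k) i
      rw [hBdef]
      simp only
      rw [show k₀ + j + k = k₀ + (j + k) by ring, this]
      congr 1
      ring
    have hC' : ∀ k i, ((B k)ᶜ).image (f i) = (B (k + 1))ᶜ := by
      intro k i
      rw [← hB' k i]
      ext y
      simp only [Finset.mem_image, Finset.mem_compl]
      constructor
      · rintro ⟨z, hz, rfl⟩ ⟨z', hz', h⟩
        exact hz ((f i).injective h ▸ hz')
      · intro h
        exact ⟨(f i).symm y, fun h' => h ⟨_, h', by simp⟩, by simp⟩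
    obtain ⟨b, hb⟩ := hne (k₀ + j)
    obtain ⟨c, hc⟩ : ∃ c, c ∉ Rch f x (k₀ + j) := by
      by_contra hall
      push Not at hall
      exact hcon (Finset.eq_univ_iff_forall.mpr hall)
    obtain ⟨w₁, hw₁⟩ := hv b
    obtain ⟨w₂, hw₂⟩ := hv c
    have e1 : v ∈ B (0 + w₁.length) := by
      rw [← hw₁]
      exact hmem B hB' w₁ 0 b (by simpa [hBdef] using hb)
    have e2 : v ∈ (fun k => (B k)ᶜ) (0 + w₂.length) := by
      rw [← hw₂]
      exact hmem (fun k => (B k)ᶜ) hC' w₂ 0 c (by simpa [hBdef] using hc)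
    have e3 := hpers B hB' _ w₂.length e1
    have e4 := hpers (fun k => (B k)ᶜ) hC' _ w₁.length e2
    simp only [Finset.mem_compl] at e4
    apply e4
    have e5 : 0 + w₂.length + w₁.length = 0 + w₁.length + w₂.length := by omega
    rw [e5]
    exact e3
  choose k₀ hk₀ using key
  refine ⟨Finset.univ.sup k₀, fun x y => ?_⟩
  have h := hk₀ x (Finset.univ.sup k₀) (Finset.le_sup (Finset.mem_univ x))
  exact mem_Rch f x _ (by rw [h]; exact Finset.mem_univ y)

end Pool.Agent.Run7.h492.EW
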