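import Pool.Agent.Run7.h492.EW.Mix

/-!
# Unimodular pairs modulo `M`
-/

set_option autoImplicit false

namespace Pool.Agent.Run7.h492.EW

open Finset

/-- the unimodular pairs modulo `M` -/
abbrev X (M : ℕ) := {v : ZMod M × ZMod M // IsCoprime v.1 v.2}

noncomputable instance instFintypeX (M : ℕ) [NeZero M] : Fintype (X M) := by
  classical
  exact inferInstance

theorem sum_inv_sq (n : ℕ) (hn : 2 ≤ n) :
    ∑ d ∈ Icc 2 n, (1 : ℝ) / (d : ℝ) ^ 2 ≤ 3 / 4 - 1 / n := by
  induction n, hn using Nat.le_induction with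
  | base => norm_num
  | succ n hn ih =>
    rw [Finset.sum_Icc_succ_top (by omega)]
    have h1 : (0 : ℝ) < n := by exact_mod_cast (by omega : 0 < n)
    have h2 : (1 : ℝ) / ((n + 1 : ℕ) : ℝ) ^ 2 ≤ 1 / n - 1 / ((n + 1 : ℕ) : ℝ) := by
      push_cast
      rw [div_sub_div _ _ h1.ne' (by positivity), div_le_div_iff₀ (by positivity) (by positivity)]
      nlinarith
    linarith

theorem coprime_of_gcd {M : ℕ} [NeZero M] (x y : ZMod M)
    (h : ∀ d : ℕ, 2 ≤ d → d ∣ M → ¬ (d ∣ x.val ∧ d ∣ y.val)) : IsCoprime x y := by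
  have hM : M ≠ 0 := NeZero.ne M
  set g := Nat.gcd (Nat.gcd x.val y.val) M with hg
  have hg0 : 0 < g := Nat.gcd_pos_of_pos_right _ (Nat.pos_of_ne_zero hM)
  have hg1 : g = 1 := by
    by_contra hne
    exact h g (by omega) (Nat.gcd_dvd_right _ _)
      ⟨(Nat.gcd_dvd_left _ _).trans (Nat.gcd_dvd_left _ _),
        (Nat.gcd_dvd_left _ _).trans (Nat.gcd_dvd_right _ _)⟩
  have e1 : (1 : ℤ) = (Nat.gcd x.val y.val : ℤ) * Nat.gcdA (Nat.gcd x.val y.val) M +
      M * Nat.gcdB (Nat.gcd x.val y.val) M := by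
    rw [← Nat.gcd_eq_gcd_ab, ← hg, hg1]; rfl
  have e2 := Nat.gcd_eq_gcd_ab x.val y.val
  have e3 : (1 : ZMod M) = ((Nat.gcd x.val y.val : ℤ) : ZMod M) *
      ((Nat.gcdA (Nat.gcd x.val y.val) M : ℤ) : ZMod M) := by
    have := congrArg (fun z : ℤ => (z : ZMod M)) e1
    simpa using this
  have e4 : ((Nat.gcd x.val y.val : ℤ) : ZMod M) =
      x * ((Nat.gcdA x.val y.val : ℤ) : ZMod M) + y * ((Nat.gcdB x.val y.val : ℤ) : ZMod M) := by
    have := congrArg (fun z : ℤ => (z : ZMod M)) e2
    simpa using this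
  refine ⟨((Nat.gcdA x.val y.val : ℤ) : ZMod M) * ((Nat.gcdA (Nat.gcd x.val y.val) M : ℤ) : ZMod M),
    ((Nat.gcdB x.val y.val : ℤ) : ZMod M) * ((Nat.gcdA (Nat.gcd x.val y.val) M : ℤ) : ZMod M), ?_⟩
  rw [e3, e4]
  ring

/-- at least a quarter of the pairs are unimodular -/
theorem card_X (M : ℕ) [NeZero M] : (M : ℝ) ^ 2 / 4 ≤ Fintype.card (X M) := by
  classical
  have hM : 0 < M := Nat.pos_of_ne_zero (NeZero.ne M)
  have hM0 : (0 : ℝ) < M := by exact_mod_cast hM
  have hcard : Fintype.card (X M) =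
      (Finset.univ.filter fun v : ZMod M × ZMod M => IsCoprime v.1 v.2).card := by
    rw [Fintype.card_subtype]
  have htot : (Finset.univ.filter fun v : ZMod M × ZMod M => IsCoprime v.1 v.2).card +
      (Finset.univ.filter fun v : ZMod M × ZMod M => ¬ IsCoprime v.1 v.2).card = M * M := by
    rw [Finset.card_filter_add_card_filter_not, Finset.card_univ, Fintype.card_prod, ZMod.card]
  set D : ℕ → Finset (ZMod M × ZMod M) := fun d =>
    Finset.univ.filter fun v : ZMod M × ZMod M => d ∣ M ∧ d ∣ v.1.val ∧ d ∣ v.2.val with hD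
  have hDc : ∀ d ∈ Icc 2 M, ((D d).card : ℝ) ≤ (M : ℝ) ^ 2 * (1 / (d : ℝ) ^ 2) := by
    intro d hd
    rw [Finset.mem_Icc] at hd
    have hd0 : (0 : ℝ) < d := by exact_mod_cast (by omega : 0 < d)
    by_cases hdM : d ∣ M
    · obtain ⟨e, he⟩ := hdM
      have h1 : (D d).card ≤ (range e ×ˢ range e).card := by
        apply Finset.card_le_card_of_injOn (fun v => (v.1.val / d, v.2.val / d))
        · intro v hv
          rw [Finset.mem_coe, hD, Finset.mem_filter] at hv
          rw [Finset.mem_coe, Finset.mem_product, Finset.mem_range, Finset.mem_range]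
          constructor
          · rw [Nat.div_lt_iff_lt_mul (by omega), mul_comm, ← he]
            exact ZMod.val_lt _
          · rw [Nat.div_lt_iff_lt_mul (by omega), mul_comm, ← he]
            exact ZMod.val_lt _
        · rintro ⟨x, y⟩ hv ⟨x', y'⟩ hv' h
          rw [Finset.mem_coe, hD, Finset.mem_filter] at hv hv'
          simp only [Prod.mk.injEq] at h
          obtain ⟨-, -, ⟨a, ha⟩, ⟨b, hb⟩⟩ := hv
          obtain ⟨-, -, ⟨a', ha'⟩, ⟨b', hb'⟩⟩ := hv'
          simp only at ha hb ha' hb'
          rw [ha, hb, ha', hb', Nat.mul_div_cancel_left _ (by omega), Nat.mul_div_cancel_left _ (by omega),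
            Nat.mul_div_cancel_left _ (by omega), Nat.mul_div_cancel_left _ (by omega)] at h
          rw [Prod.mk.injEq]
          constructor
          · apply ZMod.val_injective
            rw [ha, ha', h.1]
          · apply ZMod.val_injective
            rw [hb, hb', h.2]
      rw [Finset.card_product, Finset.card_range] at h1
      have h2 : ((D d).card : ℝ) ≤ (e : ℝ) * e := by exact_mod_cast h1
      refine h2.trans (le_of_eq ?_)
      rw [he]
      push_cast
      field_simp
    · have : D d = ∅ := by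
        rw [hD]
        simp only
        rw [Finset.filter_eq_empty_iff]
        intro v _ h
        exact hdM h.1
      rw [this]
      simp only [Finset.card_empty, Nat.cast_zero]
      positivity
  have hsub : (Finset.univ.filter fun v : ZMod M × ZMod M => ¬ IsCoprime v.1 v.2) ⊆
      (Icc 2 M).biUnion D := by
    intro v hv
    rw [Finset.mem_filter] at hv
    rw [Finset.mem_biUnion]
    by_contra hcon
    push Not at hcon
    apply hv.2
    apply coprime_of_gcd
    intro d hd hdM hdv
    refine hcon d ?_ ?_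
    · rw [Finset.mem_Icc]
      exact ⟨hd, Nat.le_of_dvd hM hdM⟩
    · rw [hD, Finset.mem_filter]
      exact ⟨Finset.mem_univ _, hdM, hdv.1, hdv.2⟩
  have h1 : ((Finset.univ.filter fun v : ZMod M × ZMod M => ¬ IsCoprime v.1 v.2).card : ℝ) ≤
      3 / 4 * (M : ℝ) ^ 2 := by
    rcases Nat.lt_or_ge M 2 with h | h
    · have : Icc 2 M = ∅ := Finset.Icc_eq_empty (by omega)
      rw [this, Finset.biUnion_empty, Finset.subset_empty] at hsub
      rw [hsub]
      simp only [Finset.card_empty, Nat.cast_zero]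
      positivity
    · have h2 := (Finset.card_le_card hsub).trans Finset.card_biUnion_le
      calc ((Finset.univ.filter fun v : ZMod M × ZMod M => ¬ IsCoprime v.1 v.2).card : ℝ) ≤
          ((∑ d ∈ Icc 2 M, (D d).card : ℕ) : ℝ) := by exact_mod_cast h2
        _ = ∑ d ∈ Icc 2 M, ((D d).card : ℝ) := by push_cast; rfl
        _ ≤ ∑ d ∈ Icc 2 M, (M : ℝ) ^ 2 * (1 / (d : ℝ) ^ 2) := Finset.sum_le_sum hDc
        _ = (M : ℝ) ^ 2 * ∑ d ∈ Icc 2 M, (1 : ℝ) / (d : ℝ) ^ 2 := by rw [Finset.mul_sum]
        _ ≤ (M : ℝ) ^ 2 * (3 / 4 - 1 / M) := by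
            gcongr
            exact sum_inv_sq M h
        _ ≤ 3 / 4 * (M : ℝ) ^ 2 := by
            have : 0 ≤ (M : ℝ) ^ 2 * (1 / M) := by positivity
            nlinarith
  have h3 : ((Fintype.card (X M) : ℕ) : ℝ) +
      ((Finset.univ.filter fun v : ZMod M × ZMod M => ¬ IsCoprime v.1 v.2).card : ℝ) = M * M := by
    rw [hcard]
    exact_mod_cast htot
  nlinarith

/-- Euclid's algorithm: a property of pairs modulo `M` that is invariant under the two elementary
operations and holds for `(0, 1)` and for the pairs which are not unimodular holds for all pairs. -/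
theorem euclid {M : ℕ} [NeZero M] (Q : ZMod M → ZMod M → Prop)
    (h1 : ∀ x y, Q (x + y) y ↔ Q x y) (h2 : ∀ x y, Q x (x + y) ↔ Q x y)
    (h0 : ∀ x y, ¬ IsCoprime x y → Q x y) (h : Q 0 1) (x y : ZMod M) : Q x y := by
  have m1 : ∀ (n : ℕ) (x y : ZMod M), Q (x + n * y) y ↔ Q x y := by
    intro n
    induction n with
    | zero => intro x y; simp
    | succ n ih =>
      intro x y
      rw [← ih x y, ← h1 (x + n * y) y]
      have : x + ((n + 1 : ℕ) : ZMod M) * y = x + n * y + y := by push_cast; ring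
      rw [this]
  have m2 : ∀ (n : ℕ) (x y : ZMod M), Q x (y + n * x) ↔ Q x y := by
    intro n
    induction n with
    | zero => intro x y; simp
    | succ n ih =>
      intro x y
      rw [← ih x y, ← h2 x (y + n * x)]
      have : y + ((n + 1 : ℕ) : ZMod M) * x = x + (y + n * x) := by push_cast; ring
      rw [this]
  have z1 : ∀ (t x y : ZMod M), Q (x + t * y) y ↔ Q x y := by
    intro t x y
    have := m1 t.val x y
    rwa [ZMod.natCast_val, ZMod.cast_id] at this
  have z2 : ∀ (t x y : ZMod M), Q x (y + t * x) ↔ Q x y := by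
    intro t x y
    have := m2 t.val x y
    rwa [ZMod.natCast_val, ZMod.cast_id] at this
  have base : ∀ b : ZMod M, Q 0 b := by
    intro b
    by_cases hb : IsCoprime (0 : ZMod M) b
    · rw [isCoprime_zero_left] at hb
      obtain ⟨u, rfl⟩ := hb
      rw [← z1 (↑u⁻¹) 0 (u : ZMod M), zero_add, Units.inv_mul, ← z2 (1 - u) 1 (u : ZMod M)]
      have : (u : ZMod M) + (1 - u) * 1 = 1 := by ring
      rw [this, ← z1 (-1) 1 1]
      have : (1 : ZMod M) + -1 * 1 = 0 := by ring
      rw [this]
      exact h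
    · exact h0 _ _ hb
  have key : ∀ n a b : ℕ, a + b = n → Q (a : ZMod M) (b : ZMod M) := by
    intro n
    induction n using Nat.strong_induction_on with
    | _ n ih =>
      intro a b hab
      rcases Nat.eq_zero_or_pos a with ha | ha
      · subst ha
        rw [Nat.cast_zero]
        exact base _
      rcases Nat.eq_zero_or_pos b with hb | hb
      · subst hb
        rw [Nat.cast_zero, ← z2 1 (a : ZMod M) 0]
        have : (0 : ZMod M) + 1 * a = a := by ring
        rw [this, ← z1 (-1) (a : ZMod M) (a : ZMod M)]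
        have : (a : ZMod M) + -1 * a = 0 := by ring
        rw [this]
        exact base _
      rcases Nat.le_total a b with hle | hle
      · obtain ⟨c, rfl⟩ := Nat.exists_eq_add_of_le hle
        have := ih (a + c) (by omega) a c rfl
        rw [Nat.cast_add, h2]
        exact this
      · obtain ⟨c, rfl⟩ := Nat.exists_eq_add_of_le hle
        have := ih (c + b) (by omega) c b rfl
        rw [Nat.cast_add, add_comm (b : ZMod M) (c : ZMod M), h1]
        exact this
  have := key _ x.val y.val rfl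
  rwa [ZMod.natCast_val, ZMod.cast_id, ZMod.natCast_val, ZMod.cast_id] at this

end Pool.Agent.Run7.h492.EW
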